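import Pool.Agent.ZTO.Stmts

set_option autoImplicit false

namespace Pool.Agent.ZTO.H60

open Pool.Agent.ZTO

/-- the iterates of an endomorphism -/
def itr {G : Type} [Group G] (ψ : G →* G) : ℕ → (G →* G)
  | 0 => MonoidHom.id G
  | (R + 1) => ψ.comp (itr ψ R)

theorem itr_apply {G : Type} [Group G] (ψ : G →* G) (R : ℕ) (h : G) :
    itr ψ R h = (⇑ψ)^[R] h := by
  induction R with
  | zero => rfl
  | succ R ih =>
    rw [Function.iterate_succ_apply', ← ih]
    rfl

theorem index_range_itr {G : Type} [Group G] (ψ : G →* G) (hψ : Function.Injective ψ) (R : ℕ) :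
    (itr ψ R).range.index = ψ.range.index ^ R := by
  induction R with
  | zero =>
    have : (itr ψ 0).range = ⊤ := MonoidHom.range_eq_top.2 (fun x => ⟨x, rfl⟩)
    rw [this, Subgroup.index_top, pow_zero]
  | succ R ih =>
    have h1 : (itr ψ (R + 1)).range = (itr ψ R).range.map ψ := MonoidHom.range_comp ψ (itr ψ R)
    rw [h1, Subgroup.index_map_of_injective _ hψ, ih, pow_succ]

theorem fin : FinStmt := by
  intro G _ _ p ψ hp hψ hidx htor H hH hcom
  have : H.FiniteIndex := hH
  have hfg : Group.FG H := inferInstance
  have hfg' : Group.FG (Abelianization H) := QuotientGroup.fg (commutator H)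
  have htor' : IsMulTorsion (Abelianization H) := by
    intro a
    obtain ⟨h, rfl⟩ := QuotientGroup.mk_surjective a
    have : IsOfFinOrder h := Submonoid.isOfFinOrder_coe.1 (htor (h : G))
    exact (Abelianization.of (G := H)).isOfFinOrder this
  have hfin : Finite (Abelianization H) := CommGroup.finite_of_fg_isMulTorsion _ htor'
  have hC : (commutator H).index ≠ 0 := by
    have : (commutator H).FiniteIndex := by
      have : Finite (H ⧸ commutator H) := hfin
      exact Subgroup.finiteIndex_of_finite_quotient
    exact this.index_ne_zero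
  set C : Subgroup G := (commutator H).map H.subtype with hCdef
  have hCi : C.index ≠ 0 := by
    rw [hCdef, Subgroup.index_map_subtype]
    exact mul_ne_zero hC hH.index_ne_zero
  have hle : ∀ R, C ≤ (itr ψ R).range := by
    intro R
    rw [hCdef, Subgroup.map_le_iff_le_comap, commutator_def, Subgroup.commutator_le]
    intro g _ g' _
    obtain ⟨h, hh⟩ := hcom g g.2 g' g'.2 R
    refine ⟨h, ?_⟩
    rw [itr_apply, ← hh]
    simp [commutatorElement_def]
  have hd := Subgroup.index_dvd_of_le (hle C.index)
  rw [index_range_itr ψ hψ, hidx] at hd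
  have h1 := Nat.le_of_dvd (Nat.pos_of_ne_zero hCi) hd
  have h2 : C.index < p ^ C.index := Nat.lt_pow_self hp.one_lt
  omega

end Pool.Agent.ZTO.H60
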