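import Pool.Agent.ZTO.Stmts

set_option autoImplicit false

namespace Pool.Agent.ZTO.H60

open Pool.Agent.ZTO

theorem lec : LecStmt := by
  intro G _ p ψ V _ F t ρ x c hp hF hc g g' b b' D D' hb hb' hL hL'
  have anti : ∀ j k, j ≤ k → F k ≤ F j := by
    intro j k hjk
    induction k, hjk using Nat.le_induction with
    | base => exact le_rfl
    | succ k _ ih => exact (hF.anti k).trans ih
  have csub : ∀ j, ∀ v ∈ F j, ∀ w ∈ F j, c j (v - w) = c j v - c j w := by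
    intro j v hv w hw
    have h := hc.add j (v - w) ((F j).sub_mem hv hw) w hw
    rw [sub_add_cancel] at h
    rw [h]; ring
  have ρmul : ∀ (a b : G) (v : V), ρ (a * b) v = ρ a (ρ b v) := by
    intro a b v
    rw [map_mul]; rfl
  have ρone : ∀ v : V, ρ 1 v = v := by
    intro v
    rw [map_one]; rfl
  -- invariance of the coefficient
  have inv : ∀ (k : G) (e : ℕ) (E : ℕ → ZMod p), 1 ≤ e → Lead F ρ c k e E → ∀ j, ∀ v ∈ F j,
      c j (ρ k v) = c j v := by
    intro k e E he hE j v hv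
    have h1 := (hE j v hv).1
    have h2 : ρ k v - v ∈ F (j + 1) := anti (j + 1) (j + e) (by omega) h1
    have h3 : c j (ρ k v - v) = 0 := (hc.ker j _ (anti j (j + 1) (by omega) h2)).2 h2
    rw [csub j _ (hF.act k j v hv) v hv] at h3
    exact sub_eq_zero.1 h3
  intro j v hv
  obtain ⟨w, hw⟩ : ∃ w, w = ρ (g⁻¹ * g'⁻¹) v := ⟨_, rfl⟩
  have hwj : w ∈ F j := hw ▸ hF.act _ j v hv
  have hv' : v = ρ g' (ρ g w) := by
    rw [hw, ← ρmul, ← ρmul]
    have : g' * (g * (g⁻¹ * g'⁻¹)) = 1 := by group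
    rw [← mul_assoc] at this
    rw [this, ρone]
  have hmul : ρ (g * g' * g⁻¹ * g'⁻¹) v = ρ g (ρ g' w) := by
    rw [hw, ← ρmul, ← ρmul]
    congr 2
    group
  have key : ρ (g * g' * g⁻¹ * g'⁻¹) v - v =
      (ρ g (ρ g' w - w) - (ρ g' w - w)) - (ρ g' (ρ g w - w) - (ρ g w - w)) := by
    have e : ρ (g * g' * g⁻¹ * g'⁻¹) v - v = ρ g (ρ g' w) - ρ g' (ρ g w) := by
      rw [hmul, ← hv']
    rw [e, map_sub, map_sub]
    abel
  have cw : c j w = c j v := by
    have h1 := inv g b D hb hL j w hwj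
    have h2 := inv g' b' D' hb' hL' j (ρ g w) (hF.act g j w hwj)
    rw [← h1, ← h2, ← hv']
  obtain ⟨a1, a2⟩ := hL j w hwj
  obtain ⟨a1', a2'⟩ := hL' j w hwj
  obtain ⟨e1, e2⟩ := hL (j + b') _ a1'
  obtain ⟨e1', e2'⟩ := hL' (j + b) _ a1
  have i1 : j + b' + b = j + (b + b') := by omega
  have i2 : j + b + b' = j + (b + b') := by omega
  rw [i1] at e1 e2
  rw [i2] at e1' e2'
  rw [key]
  refine ⟨(F _).sub_mem e1 e1', ?_⟩
  rw [csub _ _ e1 _ e1', e2, e2', a2, a2', cw]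
  ring

end Pool.Agent.ZTO.H60
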